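import Pool.Agent.Helper92.NE.Step

/-!
# The two party lemma: one step, conclusion
-/

namespace Pool.Agent.Helper92.NE

open Finset

variable {ι B : Type} [Fintype ι] [DecidableEq ι] [Fintype B] [DecidableEq B]

/-- The number of elements of `G` in the rectangle. -/
noncomputable def hit (G : Finset ((ι → B) × (ι → B))) (A A' : Finset (ι → B)) : ℝ :=
  ((G.filter (fun p => p.1 ∈ A ∧ p.2 ∈ A')).card : ℝ)

omit [DecidableEq ι] [Fintype B] in
theorem hit_eq (G : Finset ((ι → B) × (ι → B))) (A A' : Finset (ι → B)) :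
    hit G A A' = ∑ p ∈ G, if p.1 ∈ A ∧ p.2 ∈ A' then (1 : ℝ) else 0 := by
  unfold hit
  rw [← sum_filter, sum_const, nsmul_eq_mul, mul_one]

omit [DecidableEq ι] in
/-- Type 1. -/
theorem type_one (U U' : (ι → B) → Finset B) (G : Finset ((ι → B) × (ι → B))) (ε : ℝ) (hε : 0 < ε)
    (hB : 0 < Fintype.card B)
    (hG1 : ∀ p ∈ G, ε * Fintype.card B ≤ ((U p.1 ∩ U' p.2).card : ℝ))
    (A A' : Finset (ι → B)) (hA0 : 0 < A.card) (hA0' : 0 < A'.card) (hh : 0 < hit G A A')
    (hu : ∑ y : B, ((A.filter (fun γ => y ∈ U γ)).card : ℝ) * (A'.filter (fun β => y ∈ U' β)).card <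
      ε / 2 * Fintype.card B * (A.card * A'.card)) :
    ∃ y : B, 3 / 2 * (hit G A A' / (A.card * A'.card)) *
        (((A.filter (fun γ => y ∈ U γ)).card : ℝ) * (A'.filter (fun β => y ∈ U' β)).card) + ε / 4 * hit G A A' ≤
      hit G (A.filter (fun γ => y ∈ U γ)) (A'.filter (fun β => y ∈ U' β)) := by
  by_contra hcon
  push Not at hcon
  set k : ℝ := (Fintype.card B : ℝ) with hk
  have hk0 : 0 < k := by rw [hk]; exact_mod_cast hB
  have hSA : (0 : ℝ) < A.card := by exact_mod_cast hA0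
  have hSA' : (0 : ℝ) < A'.card := by exact_mod_cast hA0'
  have hsum : ε * k * hit G A A' ≤
      ∑ y : B, hit G (A.filter (fun γ => y ∈ U γ)) (A'.filter (fun β => y ∈ U' β)) := by
    simp only [hit_eq]
    rw [sum_comm, mul_sum]
    refine sum_le_sum (fun p hp => ?_)
    by_cases h : p.1 ∈ A ∧ p.2 ∈ A'
    · have h1 : ∀ y : B, (if p.1 ∈ A.filter (fun γ => y ∈ U γ) ∧ p.2 ∈ A'.filter (fun β => y ∈ U' β)
          then (1 : ℝ) else 0) = if y ∈ U p.1 ∩ U' p.2 then 1 else 0 := by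
        intro y
        simp [h.1, h.2]
      simp only [h1, h, and_self, if_true, mul_one]
      rw [← sum_filter, sum_const, nsmul_eq_mul, mul_one, filter_mem_eq_inter, univ_inter]
      exact hG1 p hp
    · simp only [h, if_false, mul_zero]
      exact sum_nonneg (fun y _ => by split_ifs <;> norm_num)
  have hBne : (univ : Finset B).Nonempty := by
    rw [← card_pos, card_univ]; exact hB
  have hlt := sum_lt_sum_of_nonempty hBne (fun y _ => hcon y)
  rw [sum_add_distrib, ← mul_sum, sum_const, card_univ, nsmul_eq_mul] at hlt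
  have h2 : 3 / 2 * (hit G A A' / (A.card * A'.card)) *
      ∑ y : B, ((A.filter (fun γ => y ∈ U γ)).card : ℝ) * (A'.filter (fun β => y ∈ U' β)).card ≤
      3 / 2 * (hit G A A' / (A.card * A'.card)) * (ε / 2 * k * (A.card * A'.card)) :=
    mul_le_mul_of_nonneg_left hu.le (by positivity)
  have h3 : 3 / 2 * (hit G A A' / (A.card * A'.card)) * (ε / 2 * k * (A.card * A'.card)) =
      3 / 4 * (ε * k * hit G A A') := by
    field_simp; ring
  have h4 : (Fintype.card B : ℝ) * (ε / 4 * hit G A A') = 1 / 4 * (ε * k * hit G A A') := by rw [hk]; ring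
  linarith

/-- The part of `A` with the letter `b` at `t`, and with `x ∈ U γ` or not. -/
def part (U : (ι → B) → Finset B) (A : Finset (ι → B)) (t : ι) (b x : B) (q : Bool) : Finset (ι → B) :=
  A.filter (fun γ => γ t = b ∧ (x ∈ U γ ↔ q = true))

omit [Fintype ι] [Fintype B] in
theorem fixed_part {Λ : Finset ι} {A : Finset (ι → B)} (hA : Fixed Λ A) (U : (ι → B) → Finset B) (t : ι) (b x : B)
    (q : Bool) : Fixed (Λ.erase t) (part U A t b x q) := by
  obtain ⟨a, ha⟩ := hA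
  refine ⟨Function.update a t b, fun γ hγ s hs => ?_⟩
  have h := mem_filter.1 hγ
  by_cases hst : s = t
  · subst hst
    rw [Function.update_self]
    exact h.2.1
  · rw [Function.update_of_ne hst]
    exact ha γ h.1 s (fun h' => hs (mem_erase.2 ⟨hst, h'⟩))

/-- The patterns of the two bits: not both `true`. -/
def pat : Fin 3 → Bool × Bool := ![(false, false), (true, false), (false, true)]

theorem sum_pat (P Q : Prop) [Decidable P] [Decidable Q] :
    ∑ j : Fin 3, ((if (P ↔ (pat j).1 = true) then (1 : ℝ) else 0) * (if (Q ↔ (pat j).2 = true) then (1 : ℝ) else 0)) =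
      1 - if P ∧ Q then 1 else 0 := by
  by_cases hP : P <;> by_cases hQ : Q <;> simp [Fin.sum_univ_three, pat, hP, hQ]

omit [Fintype ι] [DecidableEq ι] in
theorem sum_ind [AddCommGroup B] (α : ι → B) (U U' : (ι → B) → Finset B) (t : ι) (γ β : ι → B) :
    ∑ v : (B × B) × Fin 3, ((if γ t = v.1.1 ∧ (α t + v.1.1 + v.1.2 ∈ U γ ↔ (pat v.2).1 = true) then (1 : ℝ) else 0) *
      (if β t = v.1.2 ∧ (α t + v.1.1 + v.1.2 ∈ U' β ↔ (pat v.2).2 = true) then (1 : ℝ) else 0)) =
      1 - if α t + γ t + β t ∈ U γ ∩ U' β then 1 else 0 := by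
  rw [Fintype.sum_prod_type, sum_eq_single (γ t, β t)]
  · simp only [true_and, mem_inter]
    exact sum_pat _ _
  · rintro ⟨b, c⟩ _ hne
    refine sum_eq_zero (fun j _ => ?_)
    by_cases h1 : γ t = b
    · by_cases h2 : β t = c
      · exact absurd (by rw [h1, h2]) hne
      · simp [h2]
    · simp [h1]
  · intro h; exact absurd (mem_univ _) h

omit [DecidableEq ι] in
/-- Type 2, the choice of the part. -/
theorem type_two [AddCommGroup B] (α : ι → B) (U U' : (ι → B) → Finset B) (G : Finset ((ι → B) × (ι → B))) (ε : ℝ)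
    (hε : 0 < ε)
    (hG2 : ∀ p ∈ G, ∀ t, α t + p.1 t + p.2 t ∉ U p.1 ∩ U' p.2)
    (A A' : Finset (ι → B)) (hA0 : 0 < A.card) (hA0' : 0 < A'.card) (hh : 0 < hit G A A') (t : ι)
    (ht : 3 / 128 * ε * (A.card * A'.card) ≤ ev α U U' A A' t) :
    ∃ (b c : B) (j : Fin 3),
      (1 + 3 * ε / 256) * (hit G A A' / (A.card * A'.card)) * ((Fintype.card B : ℝ) ^ 2 *
        ((part U A t b (α t + b + c) (pat j).1).card * (part U' A' t c (α t + b + c) (pat j).2).card)) +
          3 * ε / 1024 * hit G A A' ≤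
      (Fintype.card B : ℝ) ^ 2 *
        hit G (part U A t b (α t + b + c) (pat j).1) (part U' A' t c (α t + b + c) (pat j).2) := by
  by_contra hcon
  push Not at hcon
  have hB : 0 < Fintype.card B := Fintype.card_pos_iff.2 ⟨0⟩
  set k : ℝ := (Fintype.card B : ℝ) with hk
  have hk0 : 0 < k := by rw [hk]; exact_mod_cast hB
  have hSA : (0 : ℝ) < A.card := by exact_mod_cast hA0
  have hSA' : (0 : ℝ) < A'.card := by exact_mod_cast hA0'
  set P1 : (B × B) × Fin 3 → Finset (ι → B) := fun v => part U A t v.1.1 (α t + v.1.1 + v.1.2) (pat v.2).1 with hP1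
  set P2 : (B × B) × Fin 3 → Finset (ι → B) := fun v => part U' A' t v.1.2 (α t + v.1.1 + v.1.2) (pat v.2).2 with hP2
  have c1 : ∀ v, ((P1 v).card : ℝ) = ∑ γ ∈ A,
      if γ t = v.1.1 ∧ (α t + v.1.1 + v.1.2 ∈ U γ ↔ (pat v.2).1 = true) then (1 : ℝ) else 0 := by
    intro v
    rw [← sum_filter, sum_const, nsmul_eq_mul, mul_one]
    rfl
  have c2 : ∀ v, ((P2 v).card : ℝ) = ∑ β ∈ A',
      if β t = v.1.2 ∧ (α t + v.1.1 + v.1.2 ∈ U' β ↔ (pat v.2).2 = true) then (1 : ℝ) else 0 := by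
    intro v
    rw [← sum_filter, sum_const, nsmul_eq_mul, mul_one]
    rfl
  -- the sum of the sizes
  have hsize : ∑ v, ((P1 v).card : ℝ) * (P2 v).card = A.card * A'.card - ev α U U' A A' t := by
    simp only [c1, c2, sum_mul_sum]
    rw [sum_comm]
    have h1 : ∀ γ ∈ A, (∑ v : (B × B) × Fin 3, ∑ β ∈ A',
        ((if γ t = v.1.1 ∧ (α t + v.1.1 + v.1.2 ∈ U γ ↔ (pat v.2).1 = true) then (1 : ℝ) else 0) *
        (if β t = v.1.2 ∧ (α t + v.1.1 + v.1.2 ∈ U' β ↔ (pat v.2).2 = true) then (1 : ℝ) else 0))) =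
        ∑ β ∈ A', (1 - if α t + γ t + β t ∈ U γ ∩ U' β then (1 : ℝ) else 0) := by
      intro γ _
      rw [sum_comm]
      exact sum_congr rfl (fun β _ => sum_ind α U U' t γ β)
    rw [sum_congr rfl h1]
    unfold ev
    simp only [sum_sub_distrib, sum_const, nsmul_eq_mul, mul_one]
  -- the sum of the hits
  have hhits : ∑ v, hit G (P1 v) (P2 v) = hit G A A' := by
    simp only [hit_eq]
    rw [sum_comm]
    refine sum_congr rfl (fun p hp => ?_)
    by_cases h : p.1 ∈ A ∧ p.2 ∈ A'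
    · have h1 : ∀ v, (if p.1 ∈ P1 v ∧ p.2 ∈ P2 v then (1 : ℝ) else 0) =
          (if p.1 t = v.1.1 ∧ (α t + v.1.1 + v.1.2 ∈ U p.1 ↔ (pat v.2).1 = true) then (1 : ℝ) else 0) *
          (if p.2 t = v.1.2 ∧ (α t + v.1.1 + v.1.2 ∈ U' p.2 ↔ (pat v.2).2 = true) then (1 : ℝ) else 0) := by
        intro v
        have e1 : (p.1 ∈ P1 v) ↔ (p.1 t = v.1.1 ∧ (α t + v.1.1 + v.1.2 ∈ U p.1 ↔ (pat v.2).1 = true)) := by
          show p.1 ∈ A.filter _ ↔ _
          rw [mem_filter]
          exact ⟨fun hh => hh.2, fun hh => ⟨h.1, hh⟩⟩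
        have e2 : (p.2 ∈ P2 v) ↔ (p.2 t = v.1.2 ∧ (α t + v.1.1 + v.1.2 ∈ U' p.2 ↔ (pat v.2).2 = true)) := by
          show p.2 ∈ A'.filter _ ↔ _
          rw [mem_filter]
          exact ⟨fun hh => hh.2, fun hh => ⟨h.2, hh⟩⟩
        rw [if_congr (and_congr e1 e2) rfl rfl]
        by_cases h1 : (p.1 t = v.1.1 ∧ (α t + v.1.1 + v.1.2 ∈ U p.1 ↔ (pat v.2).1 = true))
        · by_cases h2 : (p.2 t = v.1.2 ∧ (α t + v.1.1 + v.1.2 ∈ U' p.2 ↔ (pat v.2).2 = true))
          · rw [if_pos ⟨h1, h2⟩, if_pos h1, if_pos h2, mul_one]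
          · rw [if_neg (fun hh => h2 hh.2), if_neg h2, mul_zero]
        · rw [if_neg (fun hh => h1 hh.1), if_neg h1, zero_mul]
      rw [sum_congr rfl (fun v _ => h1 v), sum_ind α U U' t p.1 p.2, if_neg (hG2 p hp t), if_pos h, sub_zero]
    · rw [if_neg h]
      refine sum_eq_zero (fun v _ => if_neg (fun hh => h ⟨?_, ?_⟩))
      · exact (mem_filter.1 hh.1).1
      · exact (mem_filter.1 hh.2).1
  have hne : (univ : Finset ((B × B) × Fin 3)).Nonempty := ⟨((0, 0), 0), mem_univ _⟩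
  have hlt := sum_lt_sum_of_nonempty hne (fun v (_ : v ∈ univ) => hcon v.1.1 v.1.2 v.2)
  rw [sum_add_distrib, ← mul_sum, ← mul_sum, ← mul_sum, sum_const, card_univ, nsmul_eq_mul] at hlt
  have e1 : ∑ v : (B × B) × Fin 3, hit G (part U A t v.1.1 (α t + v.1.1 + v.1.2) (pat v.2).1)
      (part U' A' t v.1.2 (α t + v.1.1 + v.1.2) (pat v.2).2) = hit G A A' := hhits
  have e2 : ∑ v : (B × B) × Fin 3, (((part U A t v.1.1 (α t + v.1.1 + v.1.2) (pat v.2).1).card : ℝ) *
      (part U' A' t v.1.2 (α t + v.1.1 + v.1.2) (pat v.2).2).card) = A.card * A'.card - ev α U U' A A' t := hsize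
  rw [e1, e2] at hlt
  have e3 : (Fintype.card ((B × B) × Fin 3) : ℝ) = 3 * k ^ 2 := by
    rw [Fintype.card_prod, Fintype.card_prod, Fintype.card_fin, hk]
    push_cast; ring
  rw [e3] at hlt
  have hg : 0 < hit G A A' / (A.card * A'.card) := by positivity
  have h5 : (1 + 3 * ε / 256) * (hit G A A' / (A.card * A'.card)) * (k ^ 2 * (A.card * A'.card - ev α U U' A A' t)) ≤
      (1 + 3 * ε / 256) * (hit G A A' / (A.card * A'.card)) *
        (k ^ 2 * ((A.card * A'.card) * (1 - 3 / 128 * ε))) := by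
    refine mul_le_mul_of_nonneg_left (mul_le_mul_of_nonneg_left ?_ (by positivity)) (by positivity)
    linarith
  have h6 : (1 + 3 * ε / 256) * (hit G A A' / (A.card * A'.card)) *
        (k ^ 2 * ((A.card * A'.card) * (1 - 3 / 128 * ε))) =
      k ^ 2 * hit G A A' * ((1 + 3 * ε / 256) * (1 - 3 / 128 * ε)) := by
    field_simp
  have h7 : (1 + 3 * ε / 256) * (1 - 3 / 128 * ε) + 3 * (3 * ε / 1024) < 1 := by nlinarith [hε, mul_pos hε hε]
  have h8 : 0 < k ^ 2 * hit G A A' := by positivity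
  nlinarith [mul_lt_mul_of_pos_left h7 h8]

/-- E2: one step. -/
theorem one_step [AddCommGroup B] (α : ι → B) (U U' : (ι → B) → Finset B) (G : Finset ((ι → B) × (ι → B))) (ε : ℝ)
    (hε : 0 < ε) (hε1 : ε ≤ 1)
    (hG1 : ∀ p ∈ G, ε * Fintype.card B ≤ ((U p.1 ∩ U' p.2).card : ℝ))
    (hG2 : ∀ p ∈ G, ∀ t, α t + p.1 t + p.2 t ∉ U p.1 ∩ U' p.2)
    (Λ : Finset ι) (A A' : Finset (ι → B)) (hA : Fixed Λ A) (hA' : Fixed Λ A')
    (hpos : 0 < ms G Λ A A') (hs : Real.exp (-(Λ.card / 212)) ≤ ε / 4 * sz Λ A A') :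
    ∃ (Λ1 : Finset ι) (A1 A1' : Finset (ι → B)), Fixed Λ1 A1 ∧ Fixed Λ1 A1' ∧ Λ.card ≤ Λ1.card + 1 ∧
      (1 + 3 * ε / 256) * (ms G Λ A A' / sz Λ A A') * sz Λ1 A1 A1' + 3 * ε / 1024 * ms G Λ A A' ≤
        ms G Λ1 A1 A1' := by
  have hB : 0 < Fintype.card B := Fintype.card_pos_iff.2 ⟨0⟩
  set k : ℝ := (Fintype.card B : ℝ) with hk
  have hk0 : 0 < k := by rw [hk]; exact_mod_cast hB
  have hK : 0 < k ^ (2 * Λ.card) := by positivity
  have hms : ∀ Λ2 : Finset ι, ∀ D D', ms G Λ2 D D' = hit G D D' / k ^ (2 * Λ2.card) := fun _ _ _ => rfl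
  have hsz : ∀ Λ2 : Finset ι, ∀ D D' : Finset (ι → B), sz Λ2 D D' = (D.card * D'.card : ℝ) / k ^ (2 * Λ2.card) :=
    fun _ _ _ => rfl
  have hh : 0 < hit G A A' := by
    rw [hms] at hpos
    by_contra h
    have : hit G A A' / k ^ (2 * Λ.card) ≤ 0 := div_nonpos_of_nonpos_of_nonneg (not_lt.1 h) hK.le
    linarith
  have hne : ∃ p ∈ G, p.1 ∈ A ∧ p.2 ∈ A' := by
    by_contra h
    push Not at h
    have : hit G A A' = 0 := by
      unfold hit
      rw [filter_eq_empty_iff.2 (fun p hp hh => h p hp hh.1 hh.2)]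
      simp
    linarith
  obtain ⟨p, _, hp1, hp2⟩ := hne
  have hA0 : 0 < A.card := card_pos.2 ⟨_, hp1⟩
  have hA0' : 0 < A'.card := card_pos.2 ⟨_, hp2⟩
  have hSA : (0 : ℝ) < A.card := by exact_mod_cast hA0
  have hSA' : (0 : ℝ) < A'.card := by exact_mod_cast hA0'
  have hg : ms G Λ A A' / sz Λ A A' = hit G A A' / (A.card * A'.card) := by
    rw [hms, hsz]; field_simp
  rw [hg]
  have hg0 : 0 < hit G A A' / (A.card * A'.card) := by positivity
  by_cases hu : ∑ y : B, ((A.filter (fun γ => y ∈ U γ)).card : ℝ) * (A'.filter (fun β => y ∈ U' β)).card <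
      ε / 2 * Fintype.card B * (A.card * A'.card)
  · obtain ⟨y, hy⟩ := type_one U U' G ε hε hB hG1 A A' hA0 hA0' hh hu
    refine ⟨Λ, _, _, fixed_filter hA (fun γ => y ∈ U γ), fixed_filter hA' (fun β => y ∈ U' β), Nat.le_succ _, ?_⟩
    rw [hms, hsz, hms]
    have key : ∀ c1 g X h κ : ℝ, c1 * g * (X / k ^ (2 * Λ.card)) + κ * (h / k ^ (2 * Λ.card)) =
        (c1 * g * X + κ * h) / k ^ (2 * Λ.card) := by intros; ring
    rw [key, div_le_div_iff_of_pos_right hK]
    refine le_trans ?_ hy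
    have h1 : (0 : ℝ) ≤ ((A.filter (fun γ => y ∈ U γ)).card : ℝ) * (A'.filter (fun β => y ∈ U' β)).card := by
      positivity
    have h2 : (1 + 3 * ε / 256) * (hit G A A' / (A.card * A'.card)) ≤ 3 / 2 * (hit G A A' / (A.card * A'.card)) :=
      mul_le_mul_of_nonneg_right (by linarith) hg0.le
    have h3 := mul_le_mul_of_nonneg_right h2 h1
    have h4 : 3 * ε / 1024 * hit G A A' ≤ ε / 4 * hit G A A' := mul_le_mul_of_nonneg_right (by linarith) hh.le
    linarith
  · obtain ⟨t, ht, hev⟩ := exists_coord α U U' ε hε hε1 Λ A A' hA hA' hA0 hA0' hs (not_lt.1 hu)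
    obtain ⟨b, c, j, hv⟩ := type_two α U U' G ε hε hG2 A A' hA0 hA0' hh t hev
    have hcard : (Λ.erase t).card + 1 = Λ.card := card_erase_add_one ht
    refine ⟨Λ.erase t, _, _, fixed_part hA U t b (α t + b + c) (pat j).1,
      fixed_part hA' U' t c (α t + b + c) (pat j).2, hcard.symm.le, ?_⟩
    have hpow : k ^ (2 * Λ.card) = k ^ (2 * (Λ.erase t).card) * k ^ 2 := by
      rw [← hcard, mul_add, pow_add, mul_one]
    have hK1 : 0 < k ^ (2 * (Λ.erase t).card) := by positivity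
    rw [hms, hsz, hms, hpow]
    rw [← mul_le_mul_iff_of_pos_right (by positivity : 0 < k ^ (2 * (Λ.erase t).card) * k ^ 2)]
    have e1 : hit G (part U A t b (α t + b + c) (pat j).1) (part U' A' t c (α t + b + c) (pat j).2) /
        k ^ (2 * (Λ.erase t).card) * (k ^ (2 * (Λ.erase t).card) * k ^ 2) =
        k ^ 2 * hit G (part U A t b (α t + b + c) (pat j).1) (part U' A' t c (α t + b + c) (pat j).2) := by
      field_simp
    rw [e1]
    refine le_trans (le_of_eq ?_) hv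
    have key : ∀ c1 g X h κ K1 : ℝ, 0 < K1 → (c1 * g * (X / K1) + κ * (h / (K1 * k ^ 2))) * (K1 * k ^ 2) =
        c1 * g * (k ^ 2 * X) + κ * h := by
      intro c1 g X h κ K1 hK1
      have := hK1.ne'
      have := hk0.ne'
      field_simp
    exact key _ _ _ _ _ _ hK1

end Pool.Agent.Helper92.NE
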