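import Pool.Agent.Helper92.NE.Typ

/-!
# The two party lemma: definitions
-/

namespace Pool.Agent.Helper92.NE

open Finset

variable {ι B : Type} [Fintype ι] [DecidableEq ι] [Fintype B] [DecidableEq B]

/-- All words in `A` agree outside `Λ`. -/
def Fixed (Λ : Finset ι) (A : Finset (ι → B)) : Prop := ∃ a : ι → B, ∀ γ ∈ A, ∀ t, t ∉ Λ → γ t = a t

/-- The relative size of the rectangle `A × A'`. -/
noncomputable def sz (Λ : Finset ι) (A A' : Finset (ι → B)) : ℝ :=
  (A.card : ℝ) * A'.card / (Fintype.card B : ℝ) ^ (2 * Λ.card)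

/-- The relative size of the part of `G` in the rectangle `A × A'`. -/
noncomputable def ms (G : Finset ((ι → B) × (ι → B))) (Λ : Finset ι) (A A' : Finset (ι → B)) : ℝ :=
  ((G.filter (fun p => p.1 ∈ A ∧ p.2 ∈ A')).card : ℝ) / (Fintype.card B : ℝ) ^ (2 * Λ.card)

end Pool.Agent.Helper92.NE
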