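import Pool.Agent.Helper92.NE.Defs

/-!
# The two party lemma: statements
-/

namespace Pool.Agent.Helper92.NE.Frame

open Finset

variable {ι B : Type} [Fintype ι] [DecidableEq ι] [Fintype B] [DecidableEq B] [AddCommGroup B]

/-- E2 (helper92): one step. -/
theorem one_step (α : ι → B) (U U' : (ι → B) → Finset B) (G : Finset ((ι → B) × (ι → B))) (ε : ℝ)
    (hε : 0 < ε) (hε1 : ε ≤ 1)
    (hG1 : ∀ p ∈ G, ε * Fintype.card B ≤ ((U p.1 ∩ U' p.2).card : ℝ))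
    (hG2 : ∀ p ∈ G, ∀ t, α t + p.1 t + p.2 t ∉ U p.1 ∩ U' p.2)
    (Λ : Finset ι) (A A' : Finset (ι → B)) (hA : Fixed Λ A) (hA' : Fixed Λ A')
    (hpos : 0 < ms G Λ A A') (hs : Real.exp (-(Λ.card / 212)) ≤ ε / 4 * sz Λ A A') :
    ∃ (Λ1 : Finset ι) (A1 A1' : Finset (ι → B)), Fixed Λ1 A1 ∧ Fixed Λ1 A1' ∧ Λ.card ≤ Λ1.card + 1 ∧
      (1 + 3 * ε / 256) * (ms G Λ A A' / sz Λ A A') * sz Λ1 A1 A1' + 3 * ε / 1024 * ms G Λ A A' ≤
        ms G Λ1 A1 A1' := sorry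

/-- E3 (helper78): the two party lemma, by iteration of `one_step`. With `c = 3 ε / 256` take `C` with
`(1 + c) ^ (C - 1) * (3 ε / 1024) ≥ 1`; then `sz * (ms / sz) ^ C` does not decrease and `ms / sz` grows by the factor
`1 + c`, start with `Λ = univ`, `A = A' = univ`. `C ≤ 732 log (2/ε) / ε`. If `n < 1230 log (2/ε)` the bound is trivial. -/
theorem two_party (α : ι → B) (U U' : (ι → B) → Finset B) (G : Finset ((ι → B) × (ι → B))) (ε : ℝ)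
    (hε : 0 < ε) (hε1 : ε ≤ 1)
    (hG1 : ∀ p ∈ G, ε * Fintype.card B ≤ ((U p.1 ∩ U' p.2).card : ℝ))
    (hG2 : ∀ p ∈ G, ∀ t, α t + p.1 t + p.2 t ∉ U p.1 ∩ U' p.2) :
    (G.card : ℝ) ≤ 2 * Real.exp (-(ε / (10 ^ 6 * Real.log (2 / ε)) * Fintype.card ι)) *
      (Fintype.card B : ℝ) ^ (2 * Fintype.card ι) := sorry

end Pool.Agent.Helper92.NE.Frame
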