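import Pool.Agent.Helper92.NE.Defs

/-!
# The two party lemma: one step
-/

namespace Pool.Agent.Helper92.NE

open Finset

variable {ι B : Type} [Fintype ι] [DecidableEq ι] [Fintype B] [DecidableEq B]

theorem card_le_of_fixed {Λ : Finset ι} {A : Finset (ι → B)} (hA : Fixed Λ A) :
    (A.card : ℝ) ≤ (Fintype.card B : ℝ) ^ Λ.card := by
  obtain ⟨a, ha⟩ := hA
  have h := typ Λ A a ha
  have h1 : (1 : ℝ) ≤ Real.exp ((bad Λ A).card / 53) := Real.one_le_exp (by positivity)
  calc (A.card : ℝ) = A.card * 1 := (mul_one _).symm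
    _ ≤ A.card * Real.exp ((bad Λ A).card / 53) := mul_le_mul_of_nonneg_left h1 (Nat.cast_nonneg _)
    _ ≤ _ := h

omit [Fintype ι] [DecidableEq ι] [Fintype B] [DecidableEq B] in
theorem fixed_filter {Λ : Finset ι} {A : Finset (ι → B)} (hA : Fixed Λ A) (p : (ι → B) → Prop) [DecidablePred p] :
    Fixed Λ (A.filter p) := by
  obtain ⟨a, ha⟩ := hA
  exact ⟨a, fun γ hγ t ht => ha γ (mem_filter.1 hγ).1 t ht⟩

/-- If `A` is large then few coordinates are bad for a large part of it. -/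
theorem bad_le {Λ : Finset ι} {A A' : Finset (ι → B)} (hA' : Fixed Λ A') {ε : ℝ} (hε : 0 < ε)
    (hB : 0 < Fintype.card B) (hs : Real.exp (-(Λ.card / 212)) ≤ ε / 4 * sz Λ A A')
    (D : Finset (ι → B)) (hD : Fixed Λ D) (hDA : ε / 4 * A.card ≤ D.card) :
    4 * ((bad Λ D).card : ℝ) ≤ Λ.card := by
  obtain ⟨a, ha⟩ := hD
  have h := typ Λ D a ha
  set k : ℝ := (Fintype.card B : ℝ) with hk
  have hk0 : 0 < k := by rw [hk]; exact_mod_cast hB
  have hK : 0 < k ^ Λ.card := by positivity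
  have h1 : Real.exp (-(Λ.card / 212)) * k ^ Λ.card ≤ D.card := by
    have h2 : ε / 4 * sz Λ A A' * k ^ Λ.card ≤ ε / 4 * A.card := by
      unfold sz
      have h3 : (A'.card : ℝ) ≤ k ^ Λ.card := card_le_of_fixed hA'
      have h4 : (A.card : ℝ) * A'.card / k ^ (2 * Λ.card) * k ^ Λ.card = A.card * (A'.card / k ^ Λ.card) := by
        rw [two_mul, pow_add]; field_simp
      have h5 : (A'.card : ℝ) / k ^ Λ.card ≤ 1 := by rw [div_le_one hK]; exact h3
      calc ε / 4 * ((A.card : ℝ) * A'.card / k ^ (2 * Λ.card)) * k ^ Λ.card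
          = ε / 4 * ((A.card : ℝ) * A'.card / k ^ (2 * Λ.card) * k ^ Λ.card) := by ring
        _ = ε / 4 * (A.card * (A'.card / k ^ Λ.card)) := by rw [h4]
        _ ≤ ε / 4 * (A.card * 1) := by gcongr
        _ = ε / 4 * A.card := by ring
    calc Real.exp (-(Λ.card / 212)) * k ^ Λ.card ≤ ε / 4 * sz Λ A A' * k ^ Λ.card :=
          mul_le_mul_of_nonneg_right hs hK.le
      _ ≤ ε / 4 * A.card := h2
      _ ≤ D.card := hDA
  have h6 : Real.exp (-(Λ.card / 212)) * Real.exp ((bad Λ D).card / 53) ≤ 1 := by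
    have h7 : Real.exp (-(Λ.card / 212)) * k ^ Λ.card * Real.exp ((bad Λ D).card / 53) ≤ k ^ Λ.card :=
      (mul_le_mul_of_nonneg_right h1 (Real.exp_pos _).le).trans h
    have h8 : (Real.exp (-(Λ.card / 212)) * Real.exp ((bad Λ D).card / 53)) * k ^ Λ.card ≤ 1 * k ^ Λ.card := by
      calc _ = Real.exp (-(Λ.card / 212)) * k ^ Λ.card * Real.exp ((bad Λ D).card / 53) := by ring
        _ ≤ k ^ Λ.card := h7
        _ = _ := (one_mul _).symm
    exact le_of_mul_le_mul_right h8 hK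
  rw [← Real.exp_add, ← Real.exp_zero, Real.exp_le_exp] at h6
  linarith

omit [Fintype ι] [DecidableEq ι] in
/-- The convolution at `y`. -/
theorem conv_le [AddCommGroup B] {Λ : Finset ι} (D D' : Finset (ι → B)) (t : ι) (ht : t ∈ Λ) (h1 : t ∉ bad Λ D)
    (h2 : t ∉ bad Λ D') (z : B) :
    3 * ((D.card : ℝ) * D'.card) / (16 * Fintype.card B) ≤ ∑ b, (cnt D t b : ℝ) * cnt D' t (z - b) := by
  have hB : 0 < Fintype.card B := Fintype.card_pos_iff.2 ⟨0⟩
  set k : ℝ := (Fintype.card B : ℝ) with hk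
  have hk0 : 0 < k := by rw [hk]; exact_mod_cast hB
  have r1 : 8 * ((rare D t).card : ℝ) ≤ k := by
    have : ¬ Fintype.card B < 8 * (rare D t).card := fun h => h1 (mem_filter.2 ⟨ht, h⟩)
    rw [hk]; exact_mod_cast not_lt.1 this
  have r2 : 8 * ((rare D' t).card : ℝ) ≤ k := by
    have : ¬ Fintype.card B < 8 * (rare D' t).card := fun h => h2 (mem_filter.2 ⟨ht, h⟩)
    rw [hk]; exact_mod_cast not_lt.1 this
  set Bd : Finset B := rare D t ∪ (rare D' t).image (fun b => z - b) with hBd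
  have hBdc : (Bd.card : ℝ) ≤ k / 4 := by
    have h3 : Bd.card ≤ (rare D t).card + (rare D' t).card :=
      (card_union_le _ _).trans (Nat.add_le_add_left card_image_le _)
    have h4 : (Bd.card : ℝ) ≤ (rare D t).card + (rare D' t).card := by exact_mod_cast h3
    linarith
  have hgood : ∀ b ∈ Bdᶜ, (D.card : ℝ) * D'.card / (4 * k ^ 2) ≤ (cnt D t b : ℝ) * cnt D' t (z - b) := by
    intro b hb
    rw [mem_compl, hBd, mem_union, not_or] at hb
    have g1 : (D.card : ℝ) ≤ 2 * k * cnt D t b := by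
      have : ¬ 2 * Fintype.card B * cnt D t b < D.card := fun h => hb.1 (mem_filter.2 ⟨mem_univ _, h⟩)
      rw [hk]; exact_mod_cast not_lt.1 this
    have g2 : (D'.card : ℝ) ≤ 2 * k * cnt D' t (z - b) := by
      have : ¬ 2 * Fintype.card B * cnt D' t (z - b) < D'.card := fun h =>
        hb.2 (mem_image.2 ⟨z - b, mem_filter.2 ⟨mem_univ _, h⟩, by abel⟩)
      rw [hk]; exact_mod_cast not_lt.1 this
    rw [div_le_iff₀ (by positivity)]
    calc (D.card : ℝ) * D'.card ≤ (2 * k * cnt D t b) * (2 * k * cnt D' t (z - b)) :=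
          mul_le_mul g1 g2 (Nat.cast_nonneg _) (by positivity)
      _ = _ := by ring
  have hcc : 3 * k / 4 ≤ (Bdᶜ.card : ℝ) := by
    have h5 : Bd.card + Bdᶜ.card = Fintype.card B := card_add_card_compl _
    have h6 : (Bd.card : ℝ) + Bdᶜ.card = k := by rw [hk]; exact_mod_cast h5
    linarith
  calc 3 * ((D.card : ℝ) * D'.card) / (16 * k) = 3 * k / 4 * (D.card * D'.card / (4 * k ^ 2)) := by
        field_simp; ring
    _ ≤ Bdᶜ.card * (D.card * D'.card / (4 * k ^ 2)) := mul_le_mul_of_nonneg_right hcc (by positivity)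
    _ = ∑ _b ∈ Bdᶜ, ((D.card : ℝ) * D'.card / (4 * k ^ 2)) := by rw [sum_const, nsmul_eq_mul]
    _ ≤ ∑ b ∈ Bdᶜ, (cnt D t b : ℝ) * cnt D' t (z - b) := sum_le_sum hgood
    _ ≤ ∑ b, (cnt D t b : ℝ) * cnt D' t (z - b) :=
        sum_le_sum_of_subset_of_nonneg (subset_univ _) (fun _ _ _ => by positivity)

/-- The number of pairs in the rectangle whose letter at `t` is in both sets. -/
noncomputable def ev [AddCommGroup B] (α : ι → B) (U U' : (ι → B) → Finset B) (A A' : Finset (ι → B)) (t : ι) : ℝ :=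
  ∑ γ ∈ A, ∑ β ∈ A', if α t + γ t + β t ∈ U γ ∩ U' β then (1 : ℝ) else 0

omit [Fintype ι] [DecidableEq ι] in
theorem ev_eq [AddCommGroup B] (α : ι → B) (U U' : (ι → B) → Finset B) (A A' : Finset (ι → B)) (t : ι) :
    ev α U U' A A' t = ∑ y, ∑ b, (cnt (A.filter (fun γ => y ∈ U γ)) t b : ℝ) *
      cnt (A'.filter (fun β => y ∈ U' β)) t (y - α t - b) := by
  have h1 : ∀ y b, (cnt (A.filter (fun γ => y ∈ U γ)) t b : ℝ) =
      ∑ γ ∈ A, if y ∈ U γ ∧ γ t = b then (1 : ℝ) else 0 := by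
    intro y b
    unfold cnt
    rw [filter_filter, ← sum_filter, sum_const, nsmul_eq_mul, mul_one]
  have h2 : ∀ y b, (cnt (A'.filter (fun β => y ∈ U' β)) t b : ℝ) =
      ∑ β ∈ A', if y ∈ U' β ∧ β t = b then (1 : ℝ) else 0 := by
    intro y b
    unfold cnt
    rw [filter_filter, ← sum_filter, sum_const, nsmul_eq_mul, mul_one]
  simp only [h1, h2, sum_mul_sum]
  have h3 : ∀ y : B, (∑ b : B, ∑ γ ∈ A, ∑ β ∈ A', (if y ∈ U γ ∧ γ t = b then (1 : ℝ) else 0) *
      (if y ∈ U' β ∧ β t = y - α t - b then (1 : ℝ) else 0)) =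
      ∑ γ ∈ A, ∑ β ∈ A', ∑ b : B, (if y ∈ U γ ∧ γ t = b then (1 : ℝ) else 0) *
      (if y ∈ U' β ∧ β t = y - α t - b then (1 : ℝ) else 0) := by
    intro y
    rw [sum_comm]
    exact sum_congr rfl (fun γ _ => sum_comm)
  simp only [h3]
  rw [sum_comm]
  unfold ev
  refine sum_congr rfl (fun γ _ => ?_)
  rw [sum_comm]
  refine sum_congr rfl (fun β _ => ?_)
  rw [sum_eq_single (α t + γ t + β t)]
  · rw [sum_eq_single (γ t)]
    · have h4 : β t = α t + γ t + β t - α t - γ t := by abel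
      by_cases h5 : α t + γ t + β t ∈ U γ <;> by_cases h6 : α t + γ t + β t ∈ U' β <;>
        simp [h5, h6, ← h4]
    · intro b _ hb
      simp [Ne.symm hb]
    · intro h; exact absurd (mem_univ _) h
  · intro y _ hy
    refine sum_eq_zero (fun b _ => ?_)
    by_cases h5 : y ∈ U γ ∧ γ t = b
    · by_cases h6 : y ∈ U' β ∧ β t = y - α t - b
      · exfalso
        apply hy
        rw [h6.2, h5.2]
        abel
      · simp [h6]
    · simp [h5]
  · intro h; exact absurd (mem_univ _) h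

/-- Type 2, the coordinate: if the two sets have a large intersection on average, some coordinate has its letter in
both sets with large probability. -/
theorem exists_coord [AddCommGroup B] (α : ι → B) (U U' : (ι → B) → Finset B) (ε : ℝ) (hε : 0 < ε) (hε1 : ε ≤ 1)
    (Λ : Finset ι) (A A' : Finset (ι → B)) (hA : Fixed Λ A) (hA' : Fixed Λ A')
    (hA0 : 0 < A.card) (hA0' : 0 < A'.card) (hs : Real.exp (-(Λ.card / 212)) ≤ ε / 4 * sz Λ A A')
    (hu : ε / 2 * Fintype.card B * (A.card * A'.card) ≤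
      ∑ y : B, ((A.filter (fun γ => y ∈ U γ)).card : ℝ) * (A'.filter (fun β => y ∈ U' β)).card) :
    ∃ t ∈ Λ, 3 / 128 * ε * (A.card * A'.card) ≤ ev α U U' A A' t := by
  have hB : 0 < Fintype.card B := Fintype.card_pos_iff.2 ⟨0⟩
  set k : ℝ := (Fintype.card B : ℝ) with hk
  have hk0 : 0 < k := by rw [hk]; exact_mod_cast hB
  have hSA : (0 : ℝ) < A.card := by exact_mod_cast hA0
  have hSA' : (0 : ℝ) < A'.card := by exact_mod_cast hA0'
  have hsz : sz Λ A A' = sz Λ A' A := by unfold sz; rw [mul_comm (A.card : ℝ)]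
  -- Λ is not empty
  have hΛ : Λ.Nonempty := by
    by_contra h
    rw [not_nonempty_iff_eq_empty] at h
    have h1 := card_le_of_fixed hA
    have h2 := card_le_of_fixed hA'
    rw [h, card_empty, pow_zero] at h1 h2
    rw [h] at hs
    unfold sz at hs
    simp only [card_empty, Nat.cast_zero, zero_div, neg_zero, Real.exp_zero, mul_zero, pow_zero, div_one] at hs
    have h3 : (A.card : ℝ) * A'.card ≤ 1 * 1 := mul_le_mul h1 h2 hSA'.le zero_le_one
    nlinarith
  set Ay : B → Finset (ι → B) := fun y => A.filter (fun γ => y ∈ U γ) with hAy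
  set Ay' : B → Finset (ι → B) := fun y => A'.filter (fun β => y ∈ U' β) with hAy'
  set w : B → ℝ := fun y => ((Ay y).card : ℝ) * (Ay' y).card with hw
  have hw0 : ∀ y, 0 ≤ w y := fun y => by simp only [hw]; positivity
  set Y : Finset B := univ.filter (fun y => ε / 4 * (A.card * A'.card) ≤ w y) with hY
  have hAyle : ∀ y, ((Ay y).card : ℝ) ≤ A.card := fun y => by exact_mod_cast card_filter_le _ _
  have hAyle' : ∀ y, ((Ay' y).card : ℝ) ≤ A'.card := fun y => by exact_mod_cast card_filter_le _ _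
  have hsumY : ε / 4 * k * (A.card * A'.card) ≤ ∑ y ∈ Y, w y := by
    have h1 : ∑ y ∈ Y, w y + ∑ y ∈ univ.filter (fun y => ¬ (ε / 4 * (A.card * A'.card) ≤ w y)), w y = ∑ y, w y :=
      sum_filter_add_sum_filter_not _ _ _
    have h2 : ∑ y ∈ univ.filter (fun y => ¬ (ε / 4 * (A.card * A'.card) ≤ w y)), w y ≤
        k * (ε / 4 * (A.card * A'.card)) := by
      calc ∑ y ∈ univ.filter (fun y => ¬ (ε / 4 * (A.card * A'.card) ≤ w y)), w y
          ≤ ∑ _y ∈ univ.filter (fun y => ¬ (ε / 4 * (A.card * A'.card) ≤ w y)), ε / 4 * ((A.card : ℝ) * A'.card) :=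
            sum_le_sum (fun y hy => (not_le.1 (mem_filter.1 hy).2).le)
        _ = (univ.filter (fun y => ¬ (ε / 4 * (A.card * A'.card) ≤ w y))).card * (ε / 4 * (A.card * A'.card)) := by
            rw [sum_const, nsmul_eq_mul]
        _ ≤ k * (ε / 4 * (A.card * A'.card)) := by
            refine mul_le_mul_of_nonneg_right ?_ (by positivity)
            rw [hk]
            exact_mod_cast card_le_univ _
    have h3 : ε / 2 * k * (A.card * A'.card) ≤ ∑ y, w y := hu
    nlinarith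
  have hbad : ∀ y ∈ Y, (Λ.card : ℝ) / 2 ≤ ((Λ \ (bad Λ (Ay y) ∪ bad Λ (Ay' y))).card : ℝ) := by
    intro y hy
    have hyw : ε / 4 * (A.card * A'.card) ≤ ((Ay y).card : ℝ) * (Ay' y).card := (mem_filter.1 hy).2
    have h1 : ε / 4 * (A.card : ℝ) ≤ (Ay y).card := by
      have : ε / 4 * (A.card : ℝ) * A'.card ≤ (Ay y).card * A'.card := by
        calc ε / 4 * (A.card : ℝ) * A'.card = ε / 4 * (A.card * A'.card) := by ring
          _ ≤ ((Ay y).card : ℝ) * (Ay' y).card := hyw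
          _ ≤ _ := mul_le_mul_of_nonneg_left (hAyle' y) (Nat.cast_nonneg _)
      exact le_of_mul_le_mul_right this hSA'
    have h2 : ε / 4 * (A'.card : ℝ) ≤ (Ay' y).card := by
      have : ε / 4 * (A'.card : ℝ) * A.card ≤ (Ay' y).card * A.card := by
        calc ε / 4 * (A'.card : ℝ) * A.card = ε / 4 * (A.card * A'.card) := by ring
          _ ≤ ((Ay y).card : ℝ) * (Ay' y).card := hyw
          _ ≤ A.card * (Ay' y).card := mul_le_mul_of_nonneg_right (hAyle y) (Nat.cast_nonneg _)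
          _ = _ := mul_comm _ _
      exact le_of_mul_le_mul_right this hSA
    have b1 := bad_le hA' hε hB hs (Ay y) (fixed_filter hA _) h1
    have b2 := bad_le hA hε hB (hsz ▸ hs) (Ay' y) (fixed_filter hA' _) h2
    have h3 : Λ.card ≤ (Λ \ (bad Λ (Ay y) ∪ bad Λ (Ay' y))).card +
        ((bad Λ (Ay y)).card + (bad Λ (Ay' y)).card) := by
      have h4 : Λ.card ≤ (Λ \ (bad Λ (Ay y) ∪ bad Λ (Ay' y))).card + (bad Λ (Ay y) ∪ bad Λ (Ay' y)).card := by
        have := le_card_sdiff (bad Λ (Ay y) ∪ bad Λ (Ay' y)) Λ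
        omega
      exact h4.trans (Nat.add_le_add_left (card_union_le _ _) _)
    have h5 : (Λ.card : ℝ) ≤ (Λ \ (bad Λ (Ay y) ∪ bad Λ (Ay' y))).card +
        ((bad Λ (Ay y)).card + (bad Λ (Ay' y)).card) := by exact_mod_cast h3
    linarith
  have hconv0 : ∀ y t, 0 ≤ ∑ b, (cnt (Ay y) t b : ℝ) * cnt (Ay' y) t (y - α t - b) :=
    fun y t => sum_nonneg (fun _ _ => by positivity)
  have hsum : ∑ _t ∈ Λ, 3 / 128 * ε * ((A.card : ℝ) * A'.card) ≤ ∑ t ∈ Λ, ev α U U' A A' t := by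
    calc ∑ _t ∈ Λ, 3 / 128 * ε * ((A.card : ℝ) * A'.card)
        = Λ.card / 2 * (3 / (16 * k)) * (ε / 4 * k * (A.card * A'.card)) := by
          rw [sum_const, nsmul_eq_mul]; field_simp; ring
      _ ≤ Λ.card / 2 * (3 / (16 * k)) * ∑ y ∈ Y, w y := mul_le_mul_of_nonneg_left hsumY (by positivity)
      _ = ∑ y ∈ Y, Λ.card / 2 * (3 * w y / (16 * k)) := by
          rw [mul_sum]
          refine sum_congr rfl (fun y _ => ?_)
          field_simp
      _ ≤ ∑ y ∈ Y, ∑ t ∈ Λ, ∑ b, (cnt (Ay y) t b : ℝ) * cnt (Ay' y) t (y - α t - b) := by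
          refine sum_le_sum (fun y hy => ?_)
          calc (Λ.card : ℝ) / 2 * (3 * w y / (16 * k))
              ≤ ((Λ \ (bad Λ (Ay y) ∪ bad Λ (Ay' y))).card : ℝ) * (3 * w y / (16 * k)) :=
                mul_le_mul_of_nonneg_right (hbad y hy) (by have := hw0 y; positivity)
            _ = ∑ _t ∈ Λ \ (bad Λ (Ay y) ∪ bad Λ (Ay' y)), 3 * w y / (16 * k) := by rw [sum_const, nsmul_eq_mul]
            _ ≤ ∑ t ∈ Λ \ (bad Λ (Ay y) ∪ bad Λ (Ay' y)),
                ∑ b, (cnt (Ay y) t b : ℝ) * cnt (Ay' y) t (y - α t - b) := by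
                refine sum_le_sum (fun t ht => ?_)
                rw [mem_sdiff, mem_union, not_or] at ht
                exact conv_le (Ay y) (Ay' y) t ht.1 ht.2.1 ht.2.2 (y - α t)
            _ ≤ _ := sum_le_sum_of_subset_of_nonneg sdiff_subset (fun t _ _ => hconv0 y t)
      _ ≤ ∑ y, ∑ t ∈ Λ, ∑ b, (cnt (Ay y) t b : ℝ) * cnt (Ay' y) t (y - α t - b) :=
          sum_le_sum_of_subset_of_nonneg (subset_univ _) (fun y _ _ => sum_nonneg (fun t _ => hconv0 y t))
      _ = ∑ t ∈ Λ, ev α U U' A A' t := by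
          rw [sum_comm]
          exact sum_congr rfl (fun t _ => (ev_eq α U U' A A' t).symm)
  obtain ⟨t, ht, h⟩ := exists_le_of_sum_le hΛ hsum
  exact ⟨t, ht, h⟩

end Pool.Agent.Helper92.NE
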