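import Mathlib

/-!
# Typical coordinates of a large set of words
-/

namespace Pool.Agent.Helper92.NE

open Finset

variable {ι B : Type} [Fintype ι] [DecidableEq ι] [Fintype B] [DecidableEq B]

/-- The number of elements of `A` with value `b` at `t`. -/
def cnt (A : Finset (ι → B)) (t : ι) (b : B) : ℕ := (A.filter (fun γ => γ t = b)).card

/-- The rare values at `t`. -/
def rare (A : Finset (ι → B)) (t : ι) : Finset B :=
  univ.filter (fun b => 2 * Fintype.card B * cnt A t b < A.card)

/-- The bad coordinates: more than one eighth of the values is rare. -/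
def bad (Λ : Finset ι) (A : Finset (ι → B)) : Finset ι :=
  Λ.filter (fun t => Fintype.card B < 8 * (rare A t).card)

/-- The weight of a value. -/
noncomputable def wgt (T : Finset ι) (A : Finset (ι → B)) (t : ι) (b : B) : ℝ :=
  if t ∈ T ∧ b ∈ rare A t then 1 / 2 else 1

omit [Fintype ι] in
theorem wgt_pos (T : Finset ι) (A : Finset (ι → B)) (t : ι) (b : B) : 0 < wgt T A t b := by
  unfold wgt
  split_ifs <;> norm_num

omit [Fintype ι] in
theorem sum_wgt (T : Finset ι) (A : Finset (ι → B)) (t : ι) (ht : t ∈ T) (hB : 0 < Fintype.card B) :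
    ∑ b, wgt T A t b ≤ Fintype.card B * Real.exp (-((rare A t).card / (2 * Fintype.card B : ℝ))) := by
  have hk : (0 : ℝ) < Fintype.card B := by exact_mod_cast hB
  have h1 : ∑ b, wgt T A t b = Fintype.card B - (rare A t).card / 2 := by
    have h2 : ∀ b, wgt T A t b = 1 - (if b ∈ rare A t then 1 / 2 else 0) := by
      intro b
      unfold wgt
      by_cases h : b ∈ rare A t
      · simp [ht, h]; norm_num
      · simp [h]
    simp only [h2, sum_sub_distrib, sum_const, card_univ, nsmul_eq_mul, mul_one]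
    rw [← sum_filter, sum_const, filter_mem_eq_inter, univ_inter, nsmul_eq_mul]
    ring
  rw [h1]
  have h3 := Real.add_one_le_exp (-((rare A t).card / (2 * Fintype.card B : ℝ)))
  calc (Fintype.card B : ℝ) - (rare A t).card / 2
      = Fintype.card B * (-((rare A t).card / (2 * Fintype.card B : ℝ)) + 1) := by field_simp; ring
    _ ≤ _ := mul_le_mul_of_nonneg_left h3 hk.le

theorem typ (Λ : Finset ι) (A : Finset (ι → B)) (a : ι → B) (hA : ∀ γ ∈ A, ∀ t, t ∉ Λ → γ t = a t) :
    (A.card : ℝ) * Real.exp ((bad Λ A).card / 53) ≤ (Fintype.card B : ℝ) ^ Λ.card := by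
  rcases A.eq_empty_or_nonempty with hAe | hAne
  · rw [hAe, card_empty]
    simp only [Nat.cast_zero, zero_mul]
    positivity
  obtain ⟨γ0, hγ0⟩ := hAne
  rcases isEmpty_or_nonempty ι with hι | hι
  · have h1 : bad Λ A = ∅ := Finset.eq_empty_of_isEmpty _
    have h2 : Λ = ∅ := Finset.eq_empty_of_isEmpty _
    have h3 : A.card ≤ 1 := by
      have := card_le_univ A
      simpa using this
    rw [h1, h2]
    simp only [card_empty, Nat.cast_zero, zero_div, Real.exp_zero, mul_one, pow_zero]
    exact_mod_cast h3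
  obtain ⟨t0⟩ := hι
  have hB : 0 < Fintype.card B := Fintype.card_pos_iff.2 ⟨γ0 t0⟩
  have hk : (0 : ℝ) < Fintype.card B := by exact_mod_cast hB
  set k : ℝ := (Fintype.card B : ℝ) with hkdef
  set T := bad Λ A with hT
  have hTΛ : T ⊆ Λ := filter_subset _ _
  set P : ℝ := ∑ t ∈ T, (rare A t).card / k with hP
  set W : (ι → B) → ℝ := fun γ => ∏ t, wgt T A t (γ t) with hW
  -- upper bound
  have up : ∑ γ ∈ A, W γ ≤ k ^ Λ.card * Real.exp (-(P / 2)) := by
    set s : ι → Finset B := fun t => if t ∈ Λ then univ else {a t} with hs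
    have h1 : A ⊆ Fintype.piFinset s := by
      intro γ hγ
      rw [Fintype.mem_piFinset]
      intro t
      by_cases h : t ∈ Λ
      · simp [hs, h]
      · simp [hs, h, hA γ hγ t h]
    have h2 : ∑ γ ∈ A, W γ ≤ ∑ γ ∈ Fintype.piFinset s, W γ :=
      sum_le_sum_of_subset_of_nonneg h1 (fun γ _ _ => prod_nonneg (fun t _ => (wgt_pos _ _ _ _).le))
    have h3 : ∑ γ ∈ Fintype.piFinset s, W γ = ∏ t, ∑ b ∈ s t, wgt T A t b := by
      rw [prod_univ_sum]
    have h4 : ∀ t, ∑ b ∈ s t, wgt T A t b ≤
        (if t ∈ Λ then k else 1) * (if t ∈ T then Real.exp (-((rare A t).card / (2 * k))) else 1) := by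
      intro t
      by_cases h : t ∈ Λ
      · by_cases h' : t ∈ T
        · simp only [hs, h, h', if_true]
          exact sum_wgt T A t h' hB
        · simp only [hs, h, h', if_true, if_false, mul_one]
          have : ∀ b, wgt T A t b = 1 := by intro b; unfold wgt; simp [h']
          simp [this, hkdef]
      · have h' : t ∉ T := fun hh => h (hTΛ hh)
        simp only [hs, h, h', if_false, mul_one, sum_singleton]
        unfold wgt; simp [h']
    have h5 : ∏ t, ∑ b ∈ s t, wgt T A t b ≤
        ∏ t, ((if t ∈ Λ then k else 1) * (if t ∈ T then Real.exp (-((rare A t).card / (2 * k))) else 1)) :=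
      prod_le_prod (fun t _ => sum_nonneg (fun b _ => (wgt_pos _ _ _ _).le)) (fun t _ => h4 t)
    have h6 : ∏ t, ((if t ∈ Λ then k else 1) * (if t ∈ T then Real.exp (-((rare A t).card / (2 * k))) else 1)) =
        k ^ Λ.card * Real.exp (-(P / 2)) := by
      rw [prod_mul_distrib]
      congr 1
      · rw [prod_ite_mem, univ_inter, prod_const]
      · rw [prod_ite_mem, univ_inter, ← Real.exp_sum]
        congr 1
        rw [hP, sum_div, ← sum_neg_distrib]
        refine sum_congr rfl (fun t _ => ?_)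
        rw [div_div, mul_comm k 2]
    linarith [h2, h3.le, h5, h6.le]
  -- lower bound
  set N : (ι → B) → ℝ := fun γ => ∑ t ∈ T, (if γ t ∈ rare A t then (1 : ℝ) else 0) with hN
  have hWN : ∀ γ, W γ = Real.exp (-(Real.log 2 * N γ)) := by
    intro γ
    have h1 : W γ = ∏ t ∈ T, (if γ t ∈ rare A t then (1 / 2 : ℝ) else 1) := by
      rw [hW]
      have : ∀ t, wgt T A t (γ t) = if t ∈ T then (if γ t ∈ rare A t then (1 / 2 : ℝ) else 1) else 1 := by
        intro t
        unfold wgt
        by_cases h : t ∈ T <;> by_cases h' : γ t ∈ rare A t <;> simp [h, h']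
      simp only [this]
      rw [prod_ite_mem, univ_inter]
    rw [h1, hN, mul_sum, ← sum_neg_distrib, Real.exp_sum]
    refine prod_congr rfl (fun t _ => ?_)
    by_cases h : γ t ∈ rare A t
    · simp only [h, if_true, mul_one, Real.exp_neg, Real.exp_log (by norm_num : (0 : ℝ) < 2)]
      norm_num
    · simp [h]
  have hNsum : ∑ γ ∈ A, N γ ≤ A.card * (P / 2) := by
    rw [hN, sum_comm]
    have h1 : ∀ t ∈ T, ∑ γ ∈ A, (if γ t ∈ rare A t then (1 : ℝ) else 0) ≤
        A.card * ((rare A t).card / k / 2) := by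
      intro t _
      have h2 : ∑ γ ∈ A, (if γ t ∈ rare A t then (1 : ℝ) else 0) = ∑ b ∈ rare A t, (cnt A t b : ℝ) := by
        have h3 : ∀ γ ∈ A, (if γ t ∈ rare A t then (1 : ℝ) else 0) =
            ∑ b ∈ rare A t, (if γ t = b then (1 : ℝ) else 0) := by
          intro γ _
          rw [sum_ite_eq]
        rw [sum_congr rfl h3, sum_comm]
        refine sum_congr rfl (fun b _ => ?_)
        unfold cnt
        rw [← sum_filter, sum_const, nsmul_eq_mul, mul_one]
      rw [h2]
      have h4 : ∀ b ∈ rare A t, (cnt A t b : ℝ) ≤ A.card / (2 * k) := by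
        intro b hb
        have h5 : 2 * Fintype.card B * cnt A t b < A.card := (mem_filter.1 hb).2
        have h6 : (2 * k) * (cnt A t b : ℝ) ≤ A.card := by
          rw [hkdef]; exact_mod_cast h5.le
        rw [le_div_iff₀ (by positivity)]
        linarith
      calc ∑ b ∈ rare A t, (cnt A t b : ℝ) ≤ ∑ _b ∈ rare A t, (A.card : ℝ) / (2 * k) := sum_le_sum h4
        _ = A.card * ((rare A t).card / k / 2) := by
          rw [sum_const, nsmul_eq_mul]; field_simp
    calc ∑ t ∈ T, ∑ γ ∈ A, (if γ t ∈ rare A t then (1 : ℝ) else 0)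
        ≤ ∑ t ∈ T, (A.card : ℝ) * ((rare A t).card / k / 2) := sum_le_sum h1
      _ = A.card * (P / 2) := by rw [← mul_sum, ← sum_div]
  have hl2 : 0 < Real.log 2 := Real.log_pos (by norm_num)
  have low : (A.card : ℝ) * Real.exp (-(Real.log 2 * (P / 2))) ≤ ∑ γ ∈ A, W γ := by
    set c : ℝ := -(Real.log 2 * (P / 2)) with hc
    have h1 : ∀ γ ∈ A, Real.exp c * (1 - Real.log 2 * N γ - c) ≤ W γ := by
      intro γ _
      rw [hWN γ]
      have h2 := Real.add_one_le_exp (-(Real.log 2 * N γ) - c)
      calc Real.exp c * (1 - Real.log 2 * N γ - c) ≤ Real.exp c * Real.exp (-(Real.log 2 * N γ) - c) :=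
            mul_le_mul_of_nonneg_left (by linarith) (Real.exp_pos _).le
        _ = Real.exp (-(Real.log 2 * N γ)) := by rw [← Real.exp_add]; congr 1; ring
    have h2 := sum_le_sum h1
    have h3 : ∑ γ ∈ A, Real.exp c * (1 - Real.log 2 * N γ - c) =
        Real.exp c * (A.card * (1 - c) - Real.log 2 * ∑ γ ∈ A, N γ) := by
      rw [← mul_sum]
      congr 1
      have : ∀ γ ∈ A, (1 - Real.log 2 * N γ - c) = (1 - c) - Real.log 2 * N γ := fun γ _ => by ring
      rw [sum_congr rfl this, sum_sub_distrib, sum_const, nsmul_eq_mul, ← mul_sum]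
    rw [h3] at h2
    refine le_trans ?_ h2
    rw [mul_comm]
    refine mul_le_mul_of_nonneg_left ?_ (Real.exp_pos _).le
    have h4 : Real.log 2 * ∑ γ ∈ A, N γ ≤ Real.log 2 * (A.card * (P / 2)) := mul_le_mul_of_nonneg_left hNsum hl2.le
    have h5 : (A.card : ℝ) * (1 - c) = A.card + A.card * (Real.log 2 * (P / 2)) := by rw [hc]; ring
    rw [h5]
    nlinarith
  -- conclusion
  have hPT : (T.card : ℝ) / 8 ≤ P := by
    rw [hP]
    have h1 : ∀ t ∈ T, (1 : ℝ) / 8 ≤ (rare A t).card / k := by
      intro t ht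
      have h2 : Fintype.card B < 8 * (rare A t).card := (mem_filter.1 ht).2
      have h3 : k ≤ 8 * ((rare A t).card : ℝ) := by rw [hkdef]; exact_mod_cast h2.le
      rw [le_div_iff₀ hk]
      linarith
    calc (T.card : ℝ) / 8 = ∑ _t ∈ T, (1 : ℝ) / 8 := by rw [sum_const, nsmul_eq_mul]; ring
      _ ≤ _ := sum_le_sum h1
  have h7 : (A.card : ℝ) * Real.exp (-(Real.log 2 * (P / 2))) ≤ k ^ Λ.card * Real.exp (-(P / 2)) := low.trans up
  have hlog := Real.log_two_lt_d9
  have hT0 : (0 : ℝ) ≤ T.card := Nat.cast_nonneg _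
  have h8 : (T.card : ℝ) / 53 ≤ (1 - Real.log 2) * (P / 2) := by
    have : (0 : ℝ) < 1 - Real.log 2 := by linarith
    nlinarith
  calc (A.card : ℝ) * Real.exp (T.card / 53)
      ≤ A.card * Real.exp ((1 - Real.log 2) * (P / 2)) :=
        mul_le_mul_of_nonneg_left (Real.exp_le_exp.2 h8) (Nat.cast_nonneg _)
    _ = (A.card * Real.exp (-(Real.log 2 * (P / 2)))) * Real.exp (P / 2) := by
        rw [mul_assoc, ← Real.exp_add]; congr 2; ring
    _ ≤ (k ^ Λ.card * Real.exp (-(P / 2))) * Real.exp (P / 2) :=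
        mul_le_mul_of_nonneg_right h7 (Real.exp_pos _).le
    _ = k ^ Λ.card := by rw [mul_assoc, ← Real.exp_add]; simp

end Pool.Agent.Helper92.NE
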